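import Pool.Agent.H56.HSMain

set_option autoImplicit false

namespace Pool.Agent.Results.MP_8dad47_al.Generated

open Pool.Agent.H56.HS

theorem result (K : Type) [Field K] (n : ℕ) (I : Ideal (MvPolynomial (Fin n) K))
    (hI : IsPolymatroidal I) (i k : ℕ) (hk : i ≤ k) :
    hs i (I ^ (k + 1)) = I * hs i (I ^ k) :=
  gen hI hk

end Pool.Agent.Results.MP_8dad47_al.Generated
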